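import Mathlib

namespace Pool.Agent.Results.MP_3d4fca_co.Nine

/-- The ball of radius `r` around `v` (the distance is infinite between components). -/
def ball {V : Type} (G : SimpleGraph V) (r : ℕ) (v : V) : Set V := {u | G.edist u v ≤ r}

/-- No two distinct vertices have the same `r`-ball. -/
def TwinFree {V : Type} (G : SimpleGraph V) (r : ℕ) : Prop :=
  ∀ u v, ball G r u = ball G r v → u = v

/-- `G` is `r`-twin-free and deleting any vertex creates a pair of `r`-twins. -/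
def Terminal {V : Type} (G : SimpleGraph V) (r : ℕ) : Prop :=
  TwinFree G r ∧ ∀ v, ¬ TwinFree (G.induce {v}ᶜ) r

theorem edist_le_two {V : Type} (G : SimpleGraph V) (u v : V) :
    G.edist u v ≤ (2 : ℕ) ↔ u = v ∨ G.Adj u v ∨ ∃ w, G.Adj u w ∧ G.Adj w v := by
  constructor
  · intro h
    obtain ⟨p, hp⟩ := G.exists_walk_of_edist_ne_top (u := u) (v := v)
      (ne_top_of_le_ne_top (by simp) h)
    rw [← hp] at h
    have h2 : p.length ≤ 2 := by exact_mod_cast h
    match p, h2 with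
    | .nil, _ => exact Or.inl rfl
    | .cons h .nil, _ => exact Or.inr (Or.inl h)
    | .cons h (.cons h' .nil), _ => exact Or.inr (Or.inr ⟨_, h, h'⟩)
    | .cons _ (.cons _ (.cons _ _)), h2 => simp at h2
  · rintro (rfl | h | ⟨w, h, h'⟩)
    · simp
    · exact (SimpleGraph.edist_le h.toWalk).trans (by simp)
    · exact (SimpleGraph.edist_le (.cons h h'.toWalk)).trans (by simp)

theorem twinFree_iff {V : Type} (G : SimpleGraph V) : TwinFree G 2 ↔ ∀ u v,
    (∀ x, (x = u ∨ G.Adj x u ∨ ∃ w, G.Adj x w ∧ G.Adj w u) ↔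
      (x = v ∨ G.Adj x v ∨ ∃ w, G.Adj x w ∧ G.Adj w v)) → u = v := by
  simp only [TwinFree, ball, Set.ext_iff, Set.mem_ofPred_eq, edist_le_two]

def E : List (Fin 9 × Fin 9) :=
  [(0, 8), (1, 7), (2, 6), (2, 8), (3, 6), (3, 7), (4, 5), (4, 8), (5, 7), (6, 7), (6, 8)]

def G : SimpleGraph (Fin 9) where
  Adj a b := (a, b) ∈ E ∨ (b, a) ∈ E
  symm := ⟨fun _ _ h => h.symm⟩
  loopless := ⟨by decide⟩

instance : DecidableRel G.Adj := fun a b => inferInstanceAs (Decidable ((a, b) ∈ E ∨ (b, a) ∈ E))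

def near (v x u : Fin 9) : Prop := x = u ∨ G.Adj x u ∨ ∃ w, G.Adj x w ∧ w ≠ v ∧ G.Adj w u

instance (v x u : Fin 9) : Decidable (near v x u) := by unfold near; infer_instance

theorem result : ∃ (n : ℕ) (G : SimpleGraph (Fin n)), G.Connected ∧ Terminal G 2 ∧
    IsEmpty (G ≃g SimpleGraph.pathGraph 5) ∧ 2 ≤ n := by
  refine ⟨9, G, by decide +kernel, ⟨?_, fun v h => ?_⟩, ⟨fun e => ?_⟩, by norm_num⟩
  · rw [twinFree_iff]; decide +kernel
  · rw [twinFree_iff] at h
    have key : ∀ v : Fin 9, ∃ a b, a ≠ v ∧ b ≠ v ∧ a ≠ b ∧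
        ∀ x, x ≠ v → (near v x a ↔ near v x b) := by decide +kernel
    obtain ⟨a, b, ha, hb, hab, hx⟩ := key v
    refine hab (congrArg Subtype.val (h ⟨a, ha⟩ ⟨b, hb⟩ (fun x => ?_)))
    have := hx x.1 x.2
    simpa [near, Subtype.ext_iff] using this
  · have := Fintype.card_congr e.toEquiv
    simp at this

end Pool.Agent.Results.MP_3d4fca_co.Nine
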